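import Pool.Agent.MP_b90f02_an.Main

set_option autoImplicit false

/-!
# MP_b90f02_an, Q1: the answer is no

If the lengths eventually increase by at least a fixed amount `c > 0` (for instance `ℓ_n = n`), then
the flute surface is not parabolic, whatever the choice of the twists `t_n ∈ {0, 1/2}`.

The surface is modelled as the double of its front half, see `FluteData.lean`.
-/

open Filter

namespace Pool.Agent.Results.MP_b90f02_an.HalfTwists

open Pool.Agent.MP_b90f02

/-- The flute surfaces with twists in `{0, 1/2}` are Riemann surfaces, and if the lengths eventually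
increase by at least `c > 0`, then none of them is parabolic.  In particular there is a
non-decreasing sequence of lengths for which no choice of twists in `{0, 1/2}` gives a parabolic
surface. -/
theorem result :
    (∀ l t : ℕ → ℝ, (∀ n, 0 < l n) → (∀ n, t n = 0 ∨ t n = 1 / 2) →
      Nonempty (FluteData l t) ∧ ∀ F : FluteData l t,
        IsRiemannSurface F.region.X ∧ IsRiemannSurface F.fullRegion.X) ∧
    (∀ l : ℕ → ℝ, (∀ n, 0 < l n) → (∃ c : ℝ, 0 < c ∧ ∀ᶠ n in atTop, l n + c ≤ l (n + 1)) →
      ∀ t : ℕ → ℝ, (∀ n, t n = 0 ∨ t n = 1 / 2) → ∀ F : FluteData l t,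
        ¬ Parabolic F.region.X ∧ ¬ Parabolic F.fullRegion.X) ∧
    (∃ l : ℕ → ℝ, (∀ n, 0 < l n) ∧ Monotone l ∧
      ∀ t : ℕ → ℝ, (∀ n, t n = 0 ∨ t n = 1 / 2) → ∀ F : FluteData l t,
        ¬ Parabolic F.region.X ∧ ¬ Parabolic F.fullRegion.X) := by
  refine ⟨fun l t hl _ => ⟨nonempty_fluteData hl t, fun F =>
    ⟨F.isRiemannSurface, F.isRiemannSurface_full⟩⟩, fun l hl hc t _ F => F.not_parabolic hl hc,
    fun n => (n : ℝ) + 1, fun n => by positivity, ?_, fun t _ F => F.not_parabolic
      (fun n => by positivity) ⟨1, one_pos, Eventually.of_forall fun n => ?_⟩⟩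
  · intro a b hab
    have : (a : ℝ) ≤ b := by exact_mod_cast hab
    simp only
    linarith
  · push_cast
    linarith

end Pool.Agent.Results.MP_b90f02_an.HalfTwists
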